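import Mathlib
import Pool.Agent.Helper78.PlacticDefs
import Pool.Agent.Helper78.PlacticUndec

open Pool.Agent.Helper78.Plactic

/-- For every infinite totally ordered set `A` the first-order theory of the plactic monoid
`P(A)` is undecidable, for every choice `con : C → A` of constant symbols for generators.
The problem asks for `A = C = ℕ` and `A = C = ℤ` with `con = id`; `C = Empty` is the
signature without constants. -/
theorem Pool.Agent.Results.MP_54e6ab_lc.Undecidable.result
    (A : Type) [LinearOrder A] [Infinite A] (C : Type) [Encodable C] (con : C → A) :
    ¬ TheoryDecidable con :=
  undecidable con
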